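import Pool.Agent.helper32.NN.Spec

/-!
Project NN (MP_3938c6_al), statement NIL: all elements of a counterexample are nilpotent.
-/

set_option autoImplicit false

open Submodule

noncomputable section

namespace Pool.Agent.NN

universe u v

theorem NIL_pow {K : Type u} {U : Type v} [Field K] [Ring U] [Algebra K U] {A : Submodule K U}
    (hA : A * A ≤ A) {a : U} (ha : a ∈ A) (n : ℕ) : a ^ (n + 1) ∈ A := by
  induction n with
  | zero => simpa using ha
  | succ n ih =>
    rw [pow_succ]
    exact hA (Submodule.mul_mem_mul ih ha)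

theorem NIL_poly {K : Type u} {U : Type v} [Field K] [Ring U] [Algebra K U] {A : Submodule K U}
    (hA : A * A ≤ A) {a : U} (ha : a ∈ A) (q : Polynomial K) : a * Polynomial.aeval a q ∈ A := by
  induction q using Polynomial.induction_on' with
  | add p q hp hq =>
    rw [map_add, mul_add]
    exact A.add_mem hp hq
  | monomial n c =>
    rw [Polynomial.aeval_monomial, ← mul_assoc, ← Algebra.commutes, mul_assoc, ← pow_succ',
      ← Algebra.smul_def]
    exact A.smul_mem c (NIL_pow hA ha n)

theorem NIL_span {K : Type u} {U : Type v} [Field K] [Ring U] [Algebra K U] (a b : U)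
    (hb : b ∈ Submodule.span K (Set.range fun i : ℕ => a ^ (2 * (i + 1)))) :
    ∃ q : Polynomial K, b = a ^ 2 * Polynomial.aeval a q := by
  induction hb using Submodule.span_induction with
  | mem x hx =>
    obtain ⟨i, rfl⟩ := hx
    refine ⟨Polynomial.X ^ (2 * i), ?_⟩
    rw [map_pow, Polynomial.aeval_X, ← pow_add]
    exact congrArg (fun m : ℕ => a ^ m) (by ring)
  | zero => exact ⟨0, by simp⟩
  | add x y _ _ hx hy =>
    obtain ⟨p, rfl⟩ := hx
    obtain ⟨q, rfl⟩ := hy
    exact ⟨p + q, by rw [map_add, mul_add]⟩
  | smul c x _ hx =>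
    obtain ⟨p, rfl⟩ := hx
    exact ⟨c • p, by rw [map_smul, mul_smul_comm]⟩

theorem NIL : NIL_stmt.{u, v} := by
  intro K U _ _ _ A hC a ha
  by_cases ha0 : a = 0
  · rw [ha0]
    exact IsNilpotent.zero
  set B : Submodule K U := Submodule.span K (Set.range fun i : ℕ => a ^ (2 * (i + 1))) with hB
  have hBA : B ≤ A := by
    rw [hB, Submodule.span_le]
    rintro _ ⟨i, rfl⟩
    have := NIL_pow hC.mul ha (2 * i + 1)
    exact this
  have hBB : B * B ≤ B := by
    rw [hB, Submodule.span_mul_span, Submodule.span_le]
    rintro _ ⟨_, ⟨i, rfl⟩, _, ⟨j, rfl⟩, rfl⟩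
    refine Submodule.subset_span ⟨i + j + 1, ?_⟩
    simp only
    rw [← pow_add]
    congr 1
    ring
  by_cases hne : B = A
  · exfalso
    obtain ⟨q, hq⟩ := NIL_span a a (hne.symm ▸ ha : a ∈ B)
    set e : U := a * Polynomial.aeval a q with he
    have hcomm : Polynomial.aeval a q * a = a * Polynomial.aeval a q := by
      have h1 : Polynomial.aeval a (q * Polynomial.X) = Polynomial.aeval a q * a := by
        rw [map_mul, Polynomial.aeval_X]
      have h2 : Polynomial.aeval a (Polynomial.X * q) = a * Polynomial.aeval a q := by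
        rw [map_mul, Polynomial.aeval_X]
      rw [← h1, ← h2, mul_comm]
    have hae : a * e = a := by
      rw [he, ← mul_assoc, ← pow_two]
      exact hq.symm
    have hee : e * e = e := by
      calc e * e = a * (Polynomial.aeval a q * a) * Polynomial.aeval a q := by
            rw [he]; simp only [mul_assoc]
        _ = (a ^ 2 * Polynomial.aeval a q) * Polynomial.aeval a q := by
            rw [hcomm, pow_two]; simp only [mul_assoc]
        _ = e := by rw [← hq]
    have he0 : e ≠ 0 := by
      intro h
      rw [h, mul_zero] at hae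
      exact ha0 hae.symm
    have heA : e ∈ A := NIL_poly hC.mul ha q
    have hmulpow : ∀ n : ℕ, e * e ^ n = e := by
      intro n
      induction n with
      | zero => simp
      | succ n ih => rw [pow_succ, ← mul_assoc, ih, hee]
    by_cases h1 : Submodule.span K {e} = A
    · have h2 := hC.rank
      rw [← h1] at h2
      have h3 := rank_span_le (R := K) ({e} : Set U)
      rw [Cardinal.mk_singleton] at h3
      exact absurd h2 (not_lt.2 h3)
    · obtain ⟨n, hn⟩ := hC.prop (Submodule.span K {e})
        (by rw [Submodule.span_singleton_le_iff_mem]; exact heA)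
        (by
          rw [Submodule.span_mul_span, Submodule.span_le]
          rintro _ ⟨_, hx, _, hy, rfl⟩
          rw [Set.mem_singleton_iff] at hx hy
          subst hx
          simp only [hy]
          rw [hee]
          exact Submodule.mem_span_singleton_self e) h1
      have h2 : e ^ n ∈ (Submodule.span K {e}) ^ n :=
        Submodule.pow_mem_pow _ (Submodule.mem_span_singleton_self e) n
      rw [hn, Submodule.mem_bot] at h2
      have h3 := hmulpow n
      rw [h2, mul_zero] at h3
      exact he0 h3.symm
  · obtain ⟨n, hn⟩ := hC.prop B hBA hBB hne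
    have h1 : a ^ 2 ∈ B := Submodule.subset_span ⟨0, by simp⟩
    have h2 : (a ^ 2) ^ n ∈ B ^ n := Submodule.pow_mem_pow _ h1 n
    rw [hn, Submodule.mem_bot, ← pow_mul] at h2
    exact ⟨2 * n, h2⟩

end Pool.Agent.NN
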